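import Mathlib

namespace Pool.Agent.Results.MP_d80673_al.NotVariety

/-- An algebra with two binary operations, implication and composition. -/
structure Alg where
  carrier : Type
  imp : carrier → carrier → carrier
  comp : carrier → carrier → carrier

/-- Relational composition. -/
def rcomp {X : Type} (R S : Set (X × X)) : Set (X × X) :=
  {p | ∃ y, (p.1, y) ∈ R ∧ (y, p.2) ∈ S}

/-- `R` is a weakening relation on the poset: `≤ ; R ; ≤ ⊆ R`. -/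
def IsWeakening {X : Type} (o : PartialOrder X) (R : Set (X × X)) : Prop :=
  rcomp (rcomp {p | o.le p.1 p.2} R) {p | o.le p.1 p.2} ⊆ R

/-- The implication of weakening relations. -/
def rimp {X : Type} (o : PartialOrder X) (R S : Set (X × X)) : Set (X × X) :=
  {p | ∀ x' y', o.le x' p.1 → o.le p.2 y' → (x', y') ∈ R → (x', y') ∈ S}

/-- Membership in `K = SP {W(P)}`: the algebra embeds in a product of algebras of all weakening
relations on posets. -/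
def InK (A : Alg) : Prop :=
  ∃ (ι : Type) (X : ι → Type) (o : ∀ i, PartialOrder (X i))
    (f : A.carrier → ∀ i, Set (X i × X i)), Function.Injective f ∧
    (∀ a i, IsWeakening (o i) (f a i)) ∧
    (∀ a b i, f (A.imp a b) i = rimp (o i) (f a i) (f b i)) ∧
    ∀ a b i, f (A.comp a b) i = rcomp (f a i) (f b i)

/-- `B` is a homomorphic image of `A`. -/
def IsImage (A B : Alg) : Prop :=
  ∃ h : A.carrier → B.carrier, Function.Surjective h ∧
    (∀ a b, h (A.imp a b) = B.imp (h a) (h b)) ∧ ∀ a b, h (A.comp a b) = B.comp (h a) (h b)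

theorem quasi (B : Alg) (hB : InK B) (t u v b c : B.carrier) (ht : B.imp t t = t)
    (h1 : B.comp b c = t) (h2 : B.imp (B.comp u b) (B.imp (B.comp v b) u) = t) :
    B.imp u (B.imp v (B.comp u c)) = t := by
  obtain ⟨ι, X, o, f, hinj, hw, hi, hc⟩ := hB
  have htop : ∀ i p, p ∈ f t i := by
    intro i p
    rw [← ht, hi]
    intro _ _ _ _ h
    exact h
  apply hinj
  funext i
  apply Set.eq_of_subset_of_subset (fun p _ => htop i p)
  intro p _
  rw [hi]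
  intro x y _ _ hu
  rw [hi]
  intro r s hr hs hv
  have hu' : (r, s) ∈ f u i := hw u i ⟨y, ⟨x, hr, hu⟩, hs⟩
  have h3 := htop i (s, s)
  rw [← h1, hc] at h3
  obtain ⟨w, hb, hcc⟩ := h3
  have h4 := htop i (r, w)
  rw [← h2, hi] at h4
  have h5 := h4 r w ((o i).le_refl r) ((o i).le_refl w) (by rw [hc]; exact ⟨s, hu', hb⟩)
  rw [hi] at h5
  have h6 := h5 r w ((o i).le_refl r) ((o i).le_refl w) (by rw [hc]; exact ⟨s, hv, hb⟩)
  rw [hc]
  exact ⟨w, h6, hcc⟩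

def leT (a b : Fin 4) : Bool := a == b || b == 3 || (a == 0 && b == 2)

def ord : PartialOrder (Fin 4) where
  le a b := leT a b = true
  lt a b := leT a b = true ∧ ¬ leT b a = true
  le_refl := by decide
  le_trans := by decide
  lt_iff_le_not_ge := fun _ _ => Iff.rfl
  le_antisymm := by decide

def mask : Fin 11 → ℕ := ![65535, 36013, 173, 255, 36269, 61183, 3501, 4095, 43775, 61439, 45055]

def mem (a : Fin 11) (x y : Fin 4) : Bool := (mask a).testBit (4 * x.val + y.val)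

def impA : Fin 11 → Fin 11 → Fin 11 :=
  ![![0, 1, 2, 3, 4, 5, 6, 7, 8, 9, 10],
    ![0, 0, 3, 3, 0, 0, 7, 7, 8, 0, 0],
    ![0, 0, 0, 0, 0, 0, 0, 0, 0, 0, 0],
    ![0, 4, 4, 0, 4, 0, 4, 0, 0, 0, 0],
    ![0, 5, 3, 3, 0, 5, 7, 7, 8, 0, 0],
    ![0, 4, 2, 3, 4, 0, 6, 7, 8, 0, 10],
    ![0, 5, 3, 3, 0, 5, 0, 0, 8, 0, 0],
    ![0, 1, 2, 3, 4, 5, 4, 0, 8, 0, 0],
    ![0, 4, 2, 3, 4, 0, 6, 7, 0, 0, 0],
    ![0, 1, 2, 3, 4, 5, 6, 7, 8, 0, 10],
    ![0, 1, 2, 3, 4, 5, 6, 7, 8, 0, 0]]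

def compA : Fin 11 → Fin 11 → Fin 11 :=
  ![![0, 0, 0, 0, 0, 0, 0, 0, 0, 0, 0],
    ![0, 1, 2, 3, 4, 5, 6, 7, 8, 9, 10],
    ![3, 2, 2, 3, 2, 3, 2, 3, 3, 3, 3],
    ![3, 3, 3, 3, 3, 3, 3, 3, 3, 3, 3],
    ![0, 4, 6, 7, 4, 9, 6, 7, 10, 9, 10],
    ![0, 5, 8, 0, 0, 0, 0, 0, 0, 0, 0],
    ![7, 6, 6, 7, 6, 7, 6, 7, 7, 7, 7],
    ![7, 7, 7, 7, 7, 7, 7, 7, 7, 7, 7],
    ![0, 8, 8, 0, 8, 0, 8, 0, 0, 0, 0],
    ![0, 9, 10, 0, 0, 0, 0, 0, 0, 0, 0],
    ![0, 10, 10, 0, 10, 0, 10, 0, 0, 0, 0]]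

def impB : Fin 7 → Fin 7 → Fin 7 :=
  ![![0, 1, 2, 3, 4, 5, 6],
    ![0, 0, 3, 3, 0, 0, 6],
    ![0, 0, 0, 0, 0, 0, 0],
    ![0, 4, 4, 0, 4, 0, 0],
    ![0, 5, 3, 3, 0, 5, 6],
    ![0, 4, 2, 3, 4, 0, 6],
    ![0, 4, 2, 3, 4, 0, 0]]

def compB : Fin 7 → Fin 7 → Fin 7 :=
  ![![0, 0, 0, 0, 0, 0, 0],
    ![0, 1, 2, 3, 4, 5, 6],
    ![3, 2, 2, 3, 2, 3, 3],
    ![3, 3, 3, 3, 3, 3, 3],
    ![0, 4, 4, 0, 4, 0, 0],
    ![0, 5, 6, 0, 0, 0, 0],
    ![0, 6, 6, 0, 6, 0, 0]]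

def hom : Fin 11 → Fin 7 := ![0, 1, 2, 3, 4, 5, 4, 0, 6, 0, 0]

def A : Alg := ⟨Fin 11, impA, compA⟩

def B : Alg := ⟨Fin 7, impB, compB⟩

theorem e1 : ∀ a b : Fin 11, (∀ x y, mem a x y = mem b x y) → a = b := by decide +kernel

theorem e2 : ∀ (a : Fin 11) (x y x' y' : Fin 4), leT x x' = true → mem a x' y' = true →
    leT y' y = true → mem a x y = true := by decide +kernel

theorem e3 : ∀ (a b : Fin 11) (x y : Fin 4), mem (impA a b) x y = true ↔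
    ∀ x' y', leT x' x = true → leT y y' = true → mem a x' y' = true → mem b x' y' = true := by
  decide +kernel

theorem e4 : ∀ (a b : Fin 11) (x y : Fin 4), mem (compA a b) x y = true ↔
    ∃ z, mem a x z = true ∧ mem b z y = true := by decide +kernel

theorem result : ∃ A B : Alg, InK A ∧ IsImage A B ∧ ¬ InK B := by
  refine ⟨A, B, ⟨Unit, fun _ => Fin 4, fun _ => ord,
    fun a _ => {p | mem a p.1 p.2 = true}, ?_, ?_, ?_, ?_⟩, ⟨hom, ?_, ?_, ?_⟩, ?_⟩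
  · intro a b h
    apply e1
    intro x y
    have := Set.ext_iff.1 (congrFun h ()) (x, y)
    exact Bool.eq_iff_iff.2 this
  · rintro a _ ⟨x, y⟩ ⟨y', ⟨x', h1, h2⟩, h3⟩
    exact e2 a x y x' y' h1 h2 h3
  · intro a b _
    ext ⟨x, y⟩
    exact e3 a b x y
  · intro a b _
    ext ⟨x, y⟩
    exact e4 a b x y
  · show Function.Surjective hom
    decide +kernel
  · show ∀ a b : Fin 11, hom (impA a b) = impB (hom a) (hom b)
    decide +kernel
  · show ∀ a b : Fin 11, hom (compA a b) = compB (hom a) (hom b)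
    decide +kernel
  · intro h
    have := quasi B h (0 : Fin 7) (1 : Fin 7) (6 : Fin 7) (4 : Fin 7) (3 : Fin 7)
      (show impB 0 0 = 0 by decide) (show compB 4 3 = 0 by decide)
      (show impB (compB 1 4) (impB (compB 6 4) 1) = 0 by decide)
    exact absurd (show impB 1 (impB 6 (compB 1 3)) = 0 from this) (by decide)

end Pool.Agent.Results.MP_d80673_al.NotVariety
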